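import Pool.Agent.Lib.MP_f64c7e_nt.FP.Phiw
import Pool.Agent.Lib.MP_f64c7e_nt.FP.Classes
import Pool.Agent.Lib.MP_f64c7e_nt.FP.Orders2

/-!
Exact constraints on the denominators of rational odd fixed points of the 3x+1 conjugacy map.
-/

set_option autoImplicit false

namespace Pool.Agent.Results.MP_f64c7e_nt.FixedPointDenominators

noncomputable section

/-- The binary digit of the 2-adic integer `x` at `2^k` (it is `0` or `1`). -/
def digit (x : ℤ_[2]) (k : ℕ) : ℕ := (PadicInt.toZModPow (k + 1) x).val / 2 ^ k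

/-- The number of digits `1` of `x` among the digits at `2^0, …, 2^k`. -/
def onesUpTo (x : ℤ_[2]) (k : ℕ) : ℕ := ∑ i ∈ Finset.range (k + 1), digit x i

/-- The term of the series of `Φ x` at the position `k`: it is `2^k / 3^{j+1}` if `k` is the position
`d_j` of a digit `1` of `x`, and `0` if the digit at `2^k` is `0`. -/
def term (x : ℤ_[2]) (k : ℕ) : ℤ_[2] :=
  if digit x k = 1 then 2 ^ k * Ring.inverse (3 : ℤ_[2]) ^ onesUpTo x k else 0

/-- The 3x+1 conjugacy map `Φ(x) = -∑_j 2^{d_j} / 3^{j+1}`. -/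
def Phi (x : ℤ_[2]) : ℤ_[2] := -∑' k : ℕ, term x k

/-- The rational number `r` is, as a 2-adic number, an odd 2-adic integer fixed by `Φ`. -/
def IsOddFixed (r : ℚ) : Prop :=
  ∃ x : ℤ_[2], (x : ℚ_[2]) = (r : ℚ_[2]) ∧ ¬ (2 : ℤ_[2]) ∣ x ∧ Phi x = x

/-- `ord q` is the multiplicative order of `2` modulo `q`. -/
def ord (q : ℕ) : ℕ := orderOf (2 : ZMod q)

/-- The largest divisor of `q` prime to `3`. -/
def prime3 (q : ℕ) : ℕ := q / 3 ^ q.factorization 3

/-- The number of `j` with `0 ≤ j < ord q` for which the residue of `-u * 2 ^ j` modulo `q` in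
`[0, q)` is odd. -/
def oddResidues (u : ℤ) (q : ℕ) : ℕ :=
  ((Finset.range (ord q)).filter fun j => (-u * 2 ^ j) % (q : ℤ) % 2 = 1).card

theorem term_eq (x : ℤ_[2]) (k : ℕ) : term x k = Lib.MP_f64c7e_nt.term x k := by
  unfold term Lib.MP_f64c7e_nt.term
  rw [Lib.MP_f64c7e_nt.inverse_three]
  have h1 : digit x k = Lib.MP_f64c7e_nt.bit x k := rfl
  have h2 : onesUpTo x k = Lib.MP_f64c7e_nt.ones x (k + 1) := rfl
  rw [h1, h2]
  have h3 := Lib.MP_f64c7e_nt.bit_eq (Nat.lt_succ_self k) x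
  have h4 : Lib.MP_f64c7e_nt.bit x k < 2 := by rw [h3]; exact Nat.mod_lt _ (by norm_num)
  by_cases h5 : Lib.MP_f64c7e_nt.bit x k = 1
  · rw [if_pos h5, h5]; simp
  · have h6 : Lib.MP_f64c7e_nt.bit x k = 0 := by omega
    rw [if_neg h5, h6]; simp

theorem Phi_eq (x : ℤ_[2]) : Phi x = -∑' k : ℕ, Lib.MP_f64c7e_nt.term x k := by
  unfold Phi
  congr 1
  exact tsum_congr (term_eq x)

/-- The walks of a rational odd fixed point. -/
theorem exists_walk {r : ℚ} (h : IsOddFixed r) : Odd r.den ∧ Odd r.num ∧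
    IsCoprime r.num (r.den : ℤ) ∧
    ∃ u c : ℕ → ℤ, Lib.MP_f64c7e_nt.FP.Walk r.den u c ∧ u 0 = r.num := by
  obtain ⟨x, hxr, hodd, hfix⟩ := h
  have hcop : IsCoprime r.num (r.den : ℤ) := by
    have := r.reduced
    rw [Int.isCoprime_iff_nat_coprime]
    simpa using this
  have hmul : ((r.den : ℕ) : ℤ_[2]) * x = (r.num : ℤ_[2]) := by
    have h1 : ((r.den : ℕ) : ℚ_[2]) * (r : ℚ_[2]) = (r.num : ℚ_[2]) := by
      have h2 : (r.den : ℚ) * r = r.num := Rat.den_mul_eq_num r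
      exact_mod_cast congrArg (fun t : ℚ => (t : ℚ_[2])) h2
    rw [← hxr] at h1
    apply PadicInt.ext
    push_cast
    exact h1
  have h2q : ¬ 2 ∣ r.den := by
    intro h2
    have h3 : (2 : ℤ_[2]) ∣ ((r.den : ℕ) : ℤ_[2]) := by exact_mod_cast Nat.cast_dvd_cast h2
    have h4 : (2 : ℤ_[2]) ∣ (r.num : ℤ_[2]) := by
      rw [← hmul]; exact dvd_mul_of_dvd_left h3 x
    have h5 : r.num % 2 = 0 := (Lib.MP_f64c7e_nt.FP.odd_iff_not_dvd r.num).1 h4
    have h6 : (2 : ℤ) ∣ r.num := Int.dvd_of_emod_eq_zero h5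
    have h7 : (2 : ℤ) ∣ (r.den : ℤ) := by exact_mod_cast h2
    have h8 := hcop.isUnit_of_dvd' h6 h7
    rw [Int.isUnit_iff] at h8
    omega
  have hq : Odd r.den := by
    rw [← Nat.not_even_iff_odd, even_iff_two_dvd]; exact h2q
  have hnum : Odd r.num := by
    rw [← Int.not_even_iff_odd, even_iff_two_dvd]
    intro h3
    have h4 : (2 : ℤ_[2]) ∣ (r.num : ℤ_[2]) :=
      (Lib.MP_f64c7e_nt.FP.odd_iff_not_dvd r.num).2 (Int.emod_eq_zero_of_dvd h3)
    rw [← hmul] at h4
    rcases Lib.MP_f64c7e_nt.prime_two.dvd_or_dvd h4 with h5 | h5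
    · have h6 : (2 : ℤ_[2]) ∣ ((r.den : ℤ) : ℤ_[2]) := by push_cast; exact h5
      have h7 := (Lib.MP_f64c7e_nt.FP.odd_iff_not_dvd (r.den : ℤ)).1 h6
      exact h2q (by omega)
    · exact hodd h5
  refine ⟨hq, hnum, hcop, ?_⟩
  have hfix' : -∑' k : ℕ, Lib.MP_f64c7e_nt.term x k = x := by rw [← Phi_eq]; exact hfix
  obtain ⟨u, c, h1, h2, h3⟩ := Lib.MP_f64c7e_nt.FP.phi_walk x hfix' r.den hq r.num hmul
  exact ⟨u, c, ⟨h1.trans h2.symm, h3⟩, h1⟩

/-- **Denominators of rational fixed points of the 3x+1 conjugacy map.**  Let `r` be a rational odd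
fixed point of `Φ` other than `-1` and `1/3`, let `u` and `q` be its numerator and denominator, `m` the
largest divisor of `q` prime to `3`, `n` the order of `2` modulo `q` and `k` the number of `0 ≤ j < n`
for which the residue of `-u 2^j` modulo `q` is odd. Then `r < -1` or `r > 0`; `m > 1`; `0 < k < n`;
`3 ^ k ≡ 1` modulo `m`; `3 ^ k < 2 ^ n` if `r > 0` and `3 ^ k > 2 ^ n` if `r < 0`; if `-1` is a power of
`2` modulo `q` then `r > 0` and `2 k = n`. Consequently: if all prime factors of `q` are `3` modulo `8`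
then none is `19` modulo `24`; if all are `5` modulo `8` then none is `5` modulo `24`. -/
theorem result (r : ℚ) (hr : IsOddFixed r) (h1 : r ≠ -1) (h3 : r ≠ 1 / 3) :
    (r < -1 ∨ 0 < r) ∧ 1 < prime3 r.den ∧
    0 < oddResidues r.num r.den ∧ oddResidues r.num r.den < ord r.den ∧
    3 ^ oddResidues r.num r.den ≡ 1 [MOD prime3 r.den] ∧
    (0 < r → 3 ^ oddResidues r.num r.den < 2 ^ ord r.den) ∧
    (r < 0 → 2 ^ ord r.den < 3 ^ oddResidues r.num r.den) ∧
    ((∃ j : ℕ, (2 : ZMod r.den) ^ j = -1) → 0 < r ∧ 2 * oddResidues r.num r.den = ord r.den) ∧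
    ((∀ p : ℕ, p.Prime → p ∣ r.den → p % 8 = 3) → ∀ p : ℕ, p.Prime → p ∣ r.den → p % 24 ≠ 19) ∧
    ((∀ p : ℕ, p.Prime → p ∣ r.den → p % 8 = 5) → ∀ p : ℕ, p.Prime → p ∣ r.den → p % 24 ≠ 5) := by
  obtain ⟨hq, hnum, hcop, u, c, hw, hu⟩ := exists_walk hr
  have hpos : 0 < r.den := r.den_pos
  have hd : (0 : ℚ) < r.den := by exact_mod_cast hpos
  have hrn : r = r.num / r.den := (Rat.num_div_den r).symm
  -- powers of three
  have hthirds : ∀ e : ℕ, r.den ≠ 3 ^ e := by
    intro e he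
    rw [he] at hw
    have h5 := Lib.MP_f64c7e_nt.FP.thirds e u c hw (by rw [hu]; exact hnum)
    have hden : (r.den : ℚ) = 3 ^ e := by exact_mod_cast he
    rw [hu] at h5
    rcases h5 with h5 | h5
    · apply h1
      rw [hrn, div_eq_iff hd.ne', hden]
      have : (r.num : ℚ) = ((-(3 : ℤ) ^ e : ℤ) : ℚ) := by rw [h5]
      rw [this]; push_cast; ring
    · apply h3
      rw [hrn, div_eq_iff hd.ne', hden]
      have : ((3 * r.num : ℤ) : ℚ) = (((3 : ℤ) ^ e : ℤ) : ℚ) := by rw [h5]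
      push_cast at this
      linarith
  have hq1 : 1 < r.den := by
    have := hthirds 0
    rw [pow_zero] at this
    omega
  have hm : 1 < prime3 r.den := by
    have h4 : 3 ^ r.den.factorization 3 * prime3 r.den = r.den :=
      Nat.ordProj_mul_ordCompl_eq_self r.den 3
    have h5 : 0 < prime3 r.den := Nat.ordCompl_pos 3 hpos.ne'
    by_contra h6
    have h7 : prime3 r.den = 1 := by omega
    rw [h7, mul_one] at h4
    exact hthirds _ h4.symm
  have hsign : r < -1 ∨ 0 < r := by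
    by_contra hcon
    push Not at hcon
    have h5 : -1 < r := lt_of_le_of_ne hcon.1 (Ne.symm h1)
    refine Lib.MP_f64c7e_nt.FP.no_unit_interval r.den hq u c hw ?_ ?_ (by rw [hu]; exact hnum)
    · rw [hu]
      rw [hrn, lt_div_iff₀ hd] at h5
      have h6 : (-(r.den : ℤ) : ℚ) < (r.num : ℚ) := by push_cast; linarith
      exact_mod_cast h6
    · rw [hu]
      exact Rat.num_nonpos.2 hcon.2
  obtain ⟨h4, h5, h6, h7, h8, h9⟩ := Lib.MP_f64c7e_nt.FP.order_constraint2 r.den hq hq1 u c hw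
    (by rw [hu]; exact hnum) (by rw [hu]; exact hcop) (ord r.den) (oddResidues r.num r.den) rfl
    (by rw [hu]; rfl)
  rw [hu] at h7 h8
  have hmod : 3 ^ oddResidues r.num r.den ≡ 1 [MOD prime3 r.den] := by
    have h10 : (((3 ^ oddResidues r.num r.den : ℕ)) : ZMod (prime3 r.den)) = ((1 : ℕ) : ZMod _) := by
      push_cast
      exact h4
    exact (ZMod.natCast_eq_natCast_iff _ _ _).1 h10
  have hord : (∃ j : ℕ, (2 : ZMod r.den) ^ j = -1) →
      2 * orderOf (3 : ZMod (r.den / 3 ^ r.den.factorization 3)) ∣ orderOf (2 : ZMod r.den) := by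
    intro h
    have h10 : orderOf (2 : ZMod r.den) = 2 * oddResidues r.num r.den := (h9 h).symm
    rw [h10]
    exact Nat.mul_dvd_mul_left 2 (orderOf_dvd_of_pow_eq_one h4)
  have hcl := Lib.MP_f64c7e_nt.FP.no_class (q := r.den)
    (Q := r.den / 3 ^ r.den.factorization 3) hpos.ne' (by
      intro p hp hp3 hpq
      have h7 : 3 ^ r.den.factorization 3 * (r.den / 3 ^ r.den.factorization 3) = r.den :=
        Nat.ordProj_mul_ordCompl_eq_self r.den 3
      rw [← h7] at hpq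
      rcases (Nat.Prime.dvd_mul hp).1 hpq with h8 | h8
      · exact absurd ((Nat.prime_dvd_prime_iff_eq hp Nat.prime_three).1 (hp.dvd_of_dvd_pow h8)) hp3
      · exact h8) hord
  refine ⟨hsign, hm, h5, h6, hmod, fun h => h7 (Rat.num_pos.2 h), fun h => h8 (Rat.num_neg.2 h),
    fun h => ⟨?_, h9 h⟩, hcl.1, hcl.2⟩
  rcases hsign with h10 | h10
  · exfalso
    have h11 := h8 (Rat.num_neg.2 (by linarith))
    rw [← h9 h, pow_mul] at h11
    exact absurd (Nat.pow_le_pow_left (by norm_num : 3 ≤ 2 ^ 2) (oddResidues r.num r.den))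
      (not_le.2 h11)
  · exact h10

end

end Pool.Agent.Results.MP_f64c7e_nt.FixedPointDenominators
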