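import Pool.Agent.Lib.MP_f64c7e_nt.Padic

/-!
The graph of the 3x+1 conjugacy map meets every line of `ℤ₂ × ℤ₂` in a set of dimension zero; in
particular the odd fixed points of `Φ` form a set of dimension zero, and `Φ` modulo `2^n` has at most
`2^{o(n)}` fixed residues.
-/

set_option autoImplicit false

open Finset MeasureTheory Filter
open scoped Classical ENNReal NNReal Topology

namespace Pool.Agent.Results.MP_f64c7e_nt.LinesMeetGraph

noncomputable section

/-- The binary digit of the 2-adic integer `x` at `2^k` (it is `0` or `1`). -/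
def digit (x : ℤ_[2]) (k : ℕ) : ℕ := (PadicInt.toZModPow (k + 1) x).val / 2 ^ k

/-- The number of digits `1` of `x` among the digits at `2^0, …, 2^k`. -/
def onesUpTo (x : ℤ_[2]) (k : ℕ) : ℕ := ∑ i ∈ Finset.range (k + 1), digit x i

/-- The term of the series of `Φ x` at the position `k`: it is `2^k / 3^{j+1}` if `k` is the position
`d_j` of a digit `1` of `x`, and `0` if the digit at `2^k` is `0`. -/
def term (x : ℤ_[2]) (k : ℕ) : ℤ_[2] :=
  if digit x k = 1 then 2 ^ k * Ring.inverse (3 : ℤ_[2]) ^ onesUpTo x k else 0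

/-- The 3x+1 conjugacy map `Φ(x) = -∑_j 2^{d_j} / 3^{j+1}`. -/
def Phi (x : ℤ_[2]) : ℤ_[2] := -∑' k : ℕ, term x k

theorem term_eq (x : ℤ_[2]) (k : ℕ) : term x k = Lib.MP_f64c7e_nt.term x k := by
  unfold term Lib.MP_f64c7e_nt.term
  rw [Lib.MP_f64c7e_nt.inverse_three]
  have h1 : digit x k = Lib.MP_f64c7e_nt.bit x k := rfl
  have h2 : onesUpTo x k = Lib.MP_f64c7e_nt.ones x (k + 1) := rfl
  rw [h1, h2]
  have h3 := Lib.MP_f64c7e_nt.bit_eq (Nat.lt_succ_self k) x
  have h4 : Lib.MP_f64c7e_nt.bit x k < 2 := by rw [h3]; exact Nat.mod_lt _ (by norm_num)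
  by_cases h5 : Lib.MP_f64c7e_nt.bit x k = 1
  · rw [if_pos h5, h5]; simp
  · have h6 : Lib.MP_f64c7e_nt.bit x k = 0 := by omega
    rw [if_neg h5, h6]; simp

theorem Phi_eq (x : ℤ_[2]) : Phi x = -∑' k : ℕ, Lib.MP_f64c7e_nt.term x k := by
  unfold Phi
  congr 1
  exact tsum_congr (term_eq x)

/-- The series of `Φ` converges. -/
theorem summable_term (x : ℤ_[2]) : Summable (term x) :=
  (Lib.MP_f64c7e_nt.summable_term x).congr fun k => (term_eq x k).symm

theorem congr_line (α β γ x : ℤ_[2]) (n : ℕ) :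
    (2 : ℤ_[2]) ^ n ∣ α * x + β * Phi x - γ ↔
      (2 : ℤ_[2]) ^ n ∣ α * (Lib.MP_f64c7e_nt.A n x : ℤ_[2]) +
        β * Lib.MP_f64c7e_nt.Phi (Lib.MP_f64c7e_nt.A n x) - γ := by
  have h1 := Lib.MP_f64c7e_nt.dvd_sub_A n x
  have h2 := Lib.MP_f64c7e_nt.dvd_Phi x n
  rw [← Phi_eq] at h2
  have h3 := dvd_add (dvd_mul_of_dvd_right h1 α) (dvd_mul_of_dvd_right h2 β)
  have h4 : α * x + β * Phi x - γ =
      (α * (x - (Lib.MP_f64c7e_nt.A n x : ℤ_[2])) +
        β * (Phi x - Lib.MP_f64c7e_nt.Phi (Lib.MP_f64c7e_nt.A n x))) +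
      (α * (Lib.MP_f64c7e_nt.A n x : ℤ_[2]) +
        β * Lib.MP_f64c7e_nt.Phi (Lib.MP_f64c7e_nt.A n x) - γ) := by ring
  rw [h4]
  exact dvd_add_right h3

/-- The finite set of residues. -/
def resid (n : ℕ) (α β γ : ℤ_[2]) : Finset ℕ :=
  (range (2 ^ n)).filter fun a =>
    (2 : ℤ_[2]) ^ n ∣ α * a + β * Lib.MP_f64c7e_nt.Phi a - γ

theorem mem_resid {n : ℕ} {α β γ x : ℤ_[2]} (h : (2 : ℤ_[2]) ^ n ∣ α * x + β * Phi x - γ) :
    Lib.MP_f64c7e_nt.A n x ∈ resid n α β γ := by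
  unfold resid
  rw [mem_filter, mem_range]
  exact ⟨Lib.MP_f64c7e_nt.A_lt n x, (congr_line α β γ x n).1 h⟩

theorem ncard_le (n : ℕ) (α β γ : ℤ_[2]) :
    (PadicInt.toZModPow n '' {x : ℤ_[2] | (2 : ℤ_[2]) ^ n ∣ α * x + β * Phi x - γ}).ncard ≤
      (resid n α β γ).card := by
  have : NeZero (2 ^ n) := ⟨by positivity⟩
  rw [← Set.ncard_coe_finset]
  refine Set.ncard_le_ncard_of_injOn ZMod.val ?_ ?_ (Set.toFinite _)
  · rintro _ ⟨x, hx, rfl⟩
    exact mem_coe.2 (mem_resid hx)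
  · intro a _ b _ hab
    exact ZMod.val_injective _ hab

theorem dimH_line_of_odd (α β γ : ℤ_[2]) (h : ¬ (2 : ℤ_[2]) ∣ α ∨ ¬ (2 : ℤ_[2]) ∣ β) :
    dimH {x : ℤ_[2] | α * x + β * Phi x = γ} = 0 := by
  borelize ℤ_[2]
  set s : Set ℤ_[2] := {x : ℤ_[2] | α * x + β * Phi x = γ} with hs
  have key : ∀ d : ℝ≥0, 0 < d → dimH s ≤ d := by
    intro d hd
    apply dimH_le_of_hausdorffMeasure_ne_top
    obtain ⟨N, hN⟩ := Lib.MP_f64c7e_nt.all_lines ((d : ℝ) * Real.log 2)
      (mul_pos (by exact_mod_cast hd) (Real.log_pos (by norm_num)))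
    set t : ∀ n : ℕ, (resid n α β γ) → Set ℤ_[2] := fun n a =>
      {x | Lib.MP_f64c7e_nt.A n x = a.1} with ht
    have hdiam : ∀ n : ℕ, ∀ i, Metric.ediam (t n i) ≤ ((1 : ℝ≥0∞) / 2) ^ n := by
      intro n i
      refine Metric.ediam_le fun x hx y hy => ?_
      have h1 := Lib.MP_f64c7e_nt.dvd_sub_A n x
      have h2 := Lib.MP_f64c7e_nt.dvd_sub_A n y
      have hx' : Lib.MP_f64c7e_nt.A n x = i.1 := hx
      have hy' : Lib.MP_f64c7e_nt.A n y = i.1 := hy
      rw [hx'] at h1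
      rw [hy'] at h2
      have h3 := dvd_sub h1 h2
      have e : x - ((i.1 : ℕ) : ℤ_[2]) - (y - ((i.1 : ℕ) : ℤ_[2])) = x - y := by ring
      rw [e] at h3
      obtain ⟨c, hc⟩ := h3
      have h4 : dist x y ≤ ((1 : ℝ) / 2) ^ n := by
        rw [dist_eq_norm, hc, norm_mul, norm_pow]
        have h5 : ‖(2 : ℤ_[2])‖ = 1 / 2 := by
          have := PadicInt.norm_p (p := 2)
          rw [one_div]
          exact_mod_cast this
        rw [h5]
        have h6 := PadicInt.norm_le_one c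
        have h7 : (0 : ℝ) ≤ (1 / 2 : ℝ) ^ n := by positivity
        nlinarith
      rw [edist_dist]
      refine (ENNReal.ofReal_le_ofReal h4).trans (le_of_eq ?_)
      rw [ENNReal.ofReal_pow (by norm_num)]
      congr 1
      rw [ENNReal.ofReal_div_of_pos (by norm_num)]
      simp
    have hcov : ∀ n : ℕ, s ⊆ ⋃ i, t n i := by
      intro n x hx
      have hx' : α * x + β * Phi x = γ := hx
      have h1 : (2 : ℤ_[2]) ^ n ∣ α * x + β * Phi x - γ := by rw [hx', sub_self]; exact dvd_zero _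
      rw [Set.mem_iUnion]
      exact ⟨⟨_, mem_resid h1⟩, rfl⟩
    have hle := Measure.hausdorffMeasure_le_liminf_sum (d : ℝ) s
      (l := atTop) (fun n : ℕ => ((1 : ℝ≥0∞) / 2) ^ n)
      (ENNReal.tendsto_pow_atTop_nhds_zero_of_lt_one (by
        rw [one_div]; exact ENNReal.inv_lt_one.2 (by norm_num))) t
      (Eventually.of_forall hdiam) (Eventually.of_forall hcov)
    have hfin : liminf (fun n : ℕ => ∑ i, Metric.ediam (t n i) ^ (d : ℝ)) atTop ≤ 1 := by
      refine liminf_le_of_frequently_le' ?_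
      refine Eventually.frequently ?_
      filter_upwards [eventually_ge_atTop N] with n hn
      have h1 := hN n hn α β γ h
      calc ∑ i, Metric.ediam (t n i) ^ (d : ℝ) ≤ ∑ _i : (resid n α β γ), (((1 : ℝ≥0∞) / 2) ^ n) ^ (d : ℝ) :=
            sum_le_sum fun i _ => ENNReal.rpow_le_rpow (hdiam n i) d.2
        _ = ((resid n α β γ).card : ℝ≥0∞) * (((1 : ℝ≥0∞) / 2) ^ n) ^ (d : ℝ) := by
            rw [sum_const, card_univ, Fintype.card_coe, nsmul_eq_mul]
        _ ≤ ENNReal.ofReal (Real.exp ((d : ℝ) * Real.log 2 * n)) *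
              (((1 : ℝ≥0∞) / 2) ^ n) ^ (d : ℝ) := by
            gcongr
            rw [← ENNReal.ofReal_natCast]
            exact ENNReal.ofReal_le_ofReal h1
        _ ≤ 1 := by
            have h2 : (((1 : ℝ≥0∞) / 2) ^ n) ^ (d : ℝ) =
                ENNReal.ofReal (Real.exp (-((d : ℝ) * Real.log 2 * n))) := by
              have h3 : ((1 : ℝ≥0∞) / 2) ^ n = ENNReal.ofReal ((1 / 2 : ℝ) ^ n) := by
                rw [ENNReal.ofReal_pow (by norm_num)]
                congr 1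
                rw [ENNReal.ofReal_div_of_pos (by norm_num)]
                simp
              rw [h3, ENNReal.ofReal_rpow_of_nonneg (show (0 : ℝ) ≤ (1 / 2 : ℝ) ^ n by positivity)
                d.coe_nonneg]
              congr 1
              have h4 : (1 / 2 : ℝ) ^ n = Real.exp (-(n * Real.log 2)) := by
                rw [Real.exp_neg, ← Real.log_pow, Real.exp_log (by positivity), one_div, inv_pow]
              rw [h4, ← Real.exp_mul]
              congr 1
              ring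
            rw [h2, ← ENNReal.ofReal_mul (Real.exp_pos _).le, ← Real.exp_add]
            simp
    exact ne_top_of_le_ne_top ENNReal.one_ne_top (hle.trans hfin)
  refine le_antisymm ?_ bot_le
  refine le_of_forall_gt fun c hc => ?_
  rcases eq_or_ne c ⊤ with h1 | h1
  · subst h1
    exact lt_of_le_of_lt (key 1 one_pos) ENNReal.coe_lt_top
  · lift c to ℝ≥0 using h1
    have hc' : 0 < c := by exact_mod_cast hc
    have h2 := key (c / 2) (by positivity)
    refine lt_of_le_of_lt h2 ?_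
    exact_mod_cast NNReal.half_lt_self hc'.ne'

theorem dimH_line (α β γ : ℤ_[2]) (h : α ≠ 0 ∨ β ≠ 0) :
    dimH {x : ℤ_[2] | α * x + β * Phi x = γ} = 0 := by
  -- the largest power of two dividing both coefficients
  have h2 : (2 : ℤ_[2]) ≠ 0 := Lib.MP_f64c7e_nt.prime_two.ne_zero
  have hex : ∃ c : ℕ, ∃ α' β' : ℤ_[2], α = 2 ^ c * α' ∧ β = 2 ^ c * β' ∧
      (¬ (2 : ℤ_[2]) ∣ α' ∨ ¬ (2 : ℤ_[2]) ∣ β') := by
    by_contra hcon
    push Not at hcon
    have hall : ∀ c : ℕ, (2 : ℤ_[2]) ^ c ∣ α ∧ (2 : ℤ_[2]) ^ c ∣ β := by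
      intro c
      induction c with
      | zero => simp
      | succ c ih =>
        obtain ⟨⟨α', hα'⟩, ⟨β', hβ'⟩⟩ := ih
        obtain ⟨h3, h4⟩ := hcon c α' β' hα' hβ'
        rw [hα', hβ', pow_succ]
        exact ⟨mul_dvd_mul_left _ h3, mul_dvd_mul_left _ h4⟩
    have hz : ∀ z : ℤ_[2], (∀ c : ℕ, (2 : ℤ_[2]) ^ c ∣ z) → z = 0 := by
      intro z hz
      by_contra hne
      obtain ⟨c, d, hd, hcd⟩ := WfDvdMonoid.max_power_factor hne
        Lib.MP_f64c7e_nt.prime_two.irreducible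
      have h5 := hz (c + 1)
      rw [hcd, pow_succ] at h5
      exact hd ((mul_dvd_mul_iff_left (pow_ne_zero c h2)).1 h5)
    rcases h with h | h
    · exact h (hz α fun c => (hall c).1)
    · exact h (hz β fun c => (hall c).2)
  obtain ⟨c, α', β', hα, hβ, hodd⟩ := hex
  by_cases hγ : (2 : ℤ_[2]) ^ c ∣ γ
  · obtain ⟨γ', hγ'⟩ := hγ
    have h3 : {x : ℤ_[2] | α * x + β * Phi x = γ} = {x : ℤ_[2] | α' * x + β' * Phi x = γ'} := by
      ext x
      simp only [Set.mem_ofPred_eq]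
      rw [hα, hβ, hγ', mul_assoc, mul_assoc, ← mul_add]
      exact mul_right_inj' (pow_ne_zero c h2)
    rw [h3]
    exact dimH_line_of_odd α' β' γ' hodd
  · have h3 : {x : ℤ_[2] | α * x + β * Phi x = γ} = ∅ := by
      ext x
      simp only [Set.mem_ofPred_eq, Set.mem_empty_iff_false, iff_false]
      intro hx
      apply hγ
      rw [← hx, hα, hβ, mul_assoc, mul_assoc, ← mul_add]
      exact dvd_mul_right _ _
    rw [h3, dimH_empty]

/-- **Lines meet the graph of the 3x+1 conjugacy map in dimension zero.**  (i) For every `ε > 0` and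
all large `n`, for all `α, β, γ` in `ℤ₂` with `α` or `β` odd, at most `2^{ε n}` residue classes modulo
`2^n` contain an `x` with `α x + β Φ(x) ≡ γ (mod 2^n)`; for `α = -1`, `β = 1`, `γ = 0`: at most
`2^{ε n}` residues are fixed by `Φ` modulo `2^n`.  (ii) Hence for `(α, β) ≠ (0, 0)` the set of `x` with
`α x + β Φ(x) = γ` has Hausdorff dimension `0`; so has, in particular, the set of fixed points. -/
theorem result :
    (∀ ε : ℝ, 0 < ε → ∃ N : ℕ, ∀ n ≥ N, ∀ α β γ : ℤ_[2],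
      (¬ (2 : ℤ_[2]) ∣ α ∨ ¬ (2 : ℤ_[2]) ∣ β) →
      ((PadicInt.toZModPow n ''
        {x : ℤ_[2] | (2 : ℤ_[2]) ^ n ∣ α * x + β * Phi x - γ}).ncard : ℝ) ≤ (2 : ℝ) ^ (ε * n)) ∧
    (∀ α β γ : ℤ_[2], (α ≠ 0 ∨ β ≠ 0) → dimH {x : ℤ_[2] | α * x + β * Phi x = γ} = 0) := by
  refine ⟨fun ε hε => ?_, dimH_line⟩
  · obtain ⟨N, hN⟩ := Lib.MP_f64c7e_nt.all_lines (ε * Real.log 2)
      (mul_pos hε (Real.log_pos (by norm_num)))
    refine ⟨N, fun n hn α β γ h => ?_⟩
    have h1 := hN n hn α β γ h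
    have h2 : ((PadicInt.toZModPow n ''
        {x : ℤ_[2] | (2 : ℤ_[2]) ^ n ∣ α * x + β * Phi x - γ}).ncard : ℝ) ≤
        (resid n α β γ).card := by exact_mod_cast ncard_le n α β γ
    refine (h2.trans h1).trans (le_of_eq ?_)
    rw [Real.rpow_def_of_pos (by norm_num)]
    congr 1
    ring

end

end Pool.Agent.Results.MP_f64c7e_nt.LinesMeetGraph
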