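import Pool.Agent.Lib.MP_f64c7e_nt.FP.Cyclic

/-!
Rational fixed points of the 3x+1 conjugacy map.
-/

set_option autoImplicit false

namespace Pool.Agent.Results.MP_f64c7e_nt.RationalFixedPoints

noncomputable section

/-- The binary digit of the 2-adic integer `x` at `2^k` (it is `0` or `1`). -/
def digit (x : ℤ_[2]) (k : ℕ) : ℕ := (PadicInt.toZModPow (k + 1) x).val / 2 ^ k

/-- The number of digits `1` of `x` among the digits at `2^0, …, 2^k`. -/
def onesUpTo (x : ℤ_[2]) (k : ℕ) : ℕ := ∑ i ∈ Finset.range (k + 1), digit x i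

/-- The term of the series of `Φ x` at the position `k`: it is `2^k / 3^{j+1}` if `k` is the position
`d_j` of a digit `1` of `x`, and `0` if the digit at `2^k` is `0`. -/
def term (x : ℤ_[2]) (k : ℕ) : ℤ_[2] :=
  if digit x k = 1 then 2 ^ k * Ring.inverse (3 : ℤ_[2]) ^ onesUpTo x k else 0

/-- The 3x+1 conjugacy map `Φ(x) = -∑_j 2^{d_j} / 3^{j+1}`. -/
def Phi (x : ℤ_[2]) : ℤ_[2] := -∑' k : ℕ, term x k

/-- The rational number `r` is, as a 2-adic number, an odd 2-adic integer fixed by `Φ`. -/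
def IsOddFixed (r : ℚ) : Prop :=
  ∃ x : ℤ_[2], (x : ℚ_[2]) = (r : ℚ_[2]) ∧ ¬ (2 : ℤ_[2]) ∣ x ∧ Phi x = x

/-- `ord q` is the multiplicative order of `2` modulo `q`. -/
def ord (q : ℕ) : ℕ := orderOf (2 : ZMod q)

/-- The number of residue classes modulo `m` of the numbers `2^i 3^j`, `i, j ≥ 0`, where `m` is the
largest divisor of `q` prime to `3`; for odd `q` this is the order of the subgroup of `(ℤ/m)ˣ`
generated by `2` and `3`. -/
def ord23 (q : ℕ) : ℕ :=
  Nat.card (Submonoid.closure ({2, 3} : Set (ZMod (q / 3 ^ q.factorization 3))))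

/-- For some `e` with `1 ≤ e ≤ C` the `e`-th powers of the units modulo `m` form a cyclic group, `m`
being the largest divisor of `q` prime to `3`. If `m` is a prime power, `e = 1` will do. -/
def NearlyCyclic (C q : ℕ) : Prop :=
  ∃ e : ℕ, 0 < e ∧ e ≤ C ∧ ∃ z : (ZMod (q / 3 ^ q.factorization 3))ˣ,
    ∀ x : (ZMod (q / 3 ^ q.factorization 3))ˣ, x ^ e ∈ Subgroup.zpowers z

theorem term_eq (x : ℤ_[2]) (k : ℕ) : term x k = Lib.MP_f64c7e_nt.term x k := by
  unfold term Lib.MP_f64c7e_nt.term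
  rw [Lib.MP_f64c7e_nt.inverse_three]
  have h1 : digit x k = Lib.MP_f64c7e_nt.bit x k := rfl
  have h2 : onesUpTo x k = Lib.MP_f64c7e_nt.ones x (k + 1) := rfl
  rw [h1, h2]
  have h3 := Lib.MP_f64c7e_nt.bit_eq (Nat.lt_succ_self k) x
  have h4 : Lib.MP_f64c7e_nt.bit x k < 2 := by rw [h3]; exact Nat.mod_lt _ (by norm_num)
  by_cases h5 : Lib.MP_f64c7e_nt.bit x k = 1
  · rw [if_pos h5, h5]; simp
  · have h6 : Lib.MP_f64c7e_nt.bit x k = 0 := by omega
    rw [if_neg h5, h6]; simp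

theorem Phi_eq (x : ℤ_[2]) : Phi x = -∑' k : ℕ, Lib.MP_f64c7e_nt.term x k := by
  unfold Phi
  congr 1
  exact tsum_congr (term_eq x)

/-- The walks of a rational odd fixed point. -/
theorem exists_walk {r : ℚ} (h : IsOddFixed r) : Odd r.den ∧ Odd r.num ∧
    IsCoprime r.num (r.den : ℤ) ∧
    ∃ u c : ℕ → ℤ, Lib.MP_f64c7e_nt.FP.Walk r.den u c ∧ u 0 = r.num := by
  obtain ⟨x, hxr, hodd, hfix⟩ := h
  have hcop : IsCoprime r.num (r.den : ℤ) := by
    have := r.reduced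
    rw [Int.isCoprime_iff_nat_coprime]
    simpa using this
  have hmul : ((r.den : ℕ) : ℤ_[2]) * x = (r.num : ℤ_[2]) := by
    have h1 : ((r.den : ℕ) : ℚ_[2]) * (r : ℚ_[2]) = (r.num : ℚ_[2]) := by
      have h2 : (r.den : ℚ) * r = r.num := Rat.den_mul_eq_num r
      exact_mod_cast congrArg (fun t : ℚ => (t : ℚ_[2])) h2
    rw [← hxr] at h1
    apply PadicInt.ext
    push_cast
    exact h1
  have h2q : ¬ 2 ∣ r.den := by
    intro h2
    have h3 : (2 : ℤ_[2]) ∣ ((r.den : ℕ) : ℤ_[2]) := by exact_mod_cast Nat.cast_dvd_cast h2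
    have h4 : (2 : ℤ_[2]) ∣ (r.num : ℤ_[2]) := by
      rw [← hmul]; exact dvd_mul_of_dvd_left h3 x
    have h5 : r.num % 2 = 0 := (Lib.MP_f64c7e_nt.FP.odd_iff_not_dvd r.num).1 h4
    have h6 : (2 : ℤ) ∣ r.num := Int.dvd_of_emod_eq_zero h5
    have h7 : (2 : ℤ) ∣ (r.den : ℤ) := by exact_mod_cast h2
    have h8 := hcop.isUnit_of_dvd' h6 h7
    rw [Int.isUnit_iff] at h8
    omega
  have hq : Odd r.den := by
    rw [← Nat.not_even_iff_odd, even_iff_two_dvd]; exact h2q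
  have hnum : Odd r.num := by
    rw [← Int.not_even_iff_odd, even_iff_two_dvd]
    intro h3
    have h4 : (2 : ℤ_[2]) ∣ (r.num : ℤ_[2]) :=
      (Lib.MP_f64c7e_nt.FP.odd_iff_not_dvd r.num).2 (Int.emod_eq_zero_of_dvd h3)
    rw [← hmul] at h4
    rcases Lib.MP_f64c7e_nt.prime_two.dvd_or_dvd h4 with h5 | h5
    · have h6 : (2 : ℤ_[2]) ∣ ((r.den : ℤ) : ℤ_[2]) := by push_cast; exact h5
      have h7 := (Lib.MP_f64c7e_nt.FP.odd_iff_not_dvd (r.den : ℤ)).1 h6
      exact h2q (by omega)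
    · exact hodd h5
  refine ⟨hq, hnum, hcop, ?_⟩
  have hfix' : -∑' k : ℕ, Lib.MP_f64c7e_nt.term x k = x := by rw [← Phi_eq]; exact hfix
  obtain ⟨u, c, h1, h2, h3⟩ := Lib.MP_f64c7e_nt.FP.phi_walk x hfix' r.den hq r.num hmul
  exact ⟨u, c, ⟨h1.trans h2.symm, h3⟩, h1⟩

/-- For each denominator there are finitely many odd fixed points. -/
theorem finite_den (q : ℕ) : {r : ℚ | IsOddFixed r ∧ r.den = q}.Finite := by
  by_cases hq : Odd q
  · refine ((Lib.MP_f64c7e_nt.FP.fin_q q hq).image (fun z : ℤ => (z : ℚ) / q)).subset ?_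
    rintro r ⟨hr, rfl⟩
    obtain ⟨-, h2, h3, u, c, hw, h0⟩ := exists_walk hr
    exact ⟨r.num, ⟨h2, h3, u, c, hw, h0⟩, Rat.num_div_den r⟩
  · have : {r : ℚ | IsOddFixed r ∧ r.den = q} = ∅ := by
      ext r
      simp only [Set.mem_ofPred_eq, Set.mem_empty_iff_false, iff_false]
      rintro ⟨hr, rfl⟩
      exact hq (exists_walk hr).1
    rw [this]
    exact Set.finite_empty

/-- **Rational fixed points of the 3x+1 conjugacy map.**  Let `x` run over the rational odd fixed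
points of `Φ`, and let `q` be its denominator, `n = ord q` the order of `2` modulo `q`.
(i) For every `C` there is `ρ` such that `n ^ 2 < ρ q` or `C n < ord23 q` (no exceptions).
(ii) For every `C` there is `ρ` such that `n ^ 2 < ρ q` whenever `-1` is a power of `2` modulo `q` and
the units modulo the prime-to-`3` part of `q` are cyclic up to `e`-th powers with `e ≤ C`.
(iii) For every `C` only finitely many `x` satisfy `q ≤ C n`.
(iv) For every odd `N` only finitely many `x` lie in `ℤ[1/N]`. -/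
theorem result :
    (∀ C : ℕ, ∃ ρ : ℕ, ∀ r : ℚ, IsOddFixed r →
      ord r.den ^ 2 < ρ * r.den ∨ C * ord r.den < ord23 r.den) ∧
    (∀ C : ℕ, ∃ ρ : ℕ, ∀ r : ℚ, IsOddFixed r → (∃ j : ℕ, (2 : ZMod r.den) ^ j = -1) →
      NearlyCyclic C r.den → ord r.den ^ 2 < ρ * r.den) ∧
    (∀ C : ℕ, {r : ℚ | IsOddFixed r ∧ r.den ≤ C * ord r.den}.Finite) ∧
    (∀ N : ℕ, Odd N → {r : ℚ | IsOddFixed r ∧ ∃ e : ℕ, r.den ∣ N ^ e}.Finite) := by
  have hii : ∀ C : ℕ, {r : ℚ | IsOddFixed r ∧ r.den ≤ C * ord r.den}.Finite := by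
    intro C
    obtain ⟨B, hB⟩ := Lib.MP_f64c7e_nt.FP.den_bound C
    have h1 : (⋃ q ∈ Finset.range (B + 1), {r : ℚ | IsOddFixed r ∧ r.den = q}).Finite :=
      Set.Finite.biUnion (Finset.finite_toSet _) fun q _ => finite_den q
    refine h1.subset ?_
    rintro r ⟨hr, hC⟩
    obtain ⟨h2, h3, h4, u, c, hw, h0⟩ := exists_walk hr
    have h5 : r.den ≤ B := hB r.den h2 u c hw (by rw [h0]; exact h4) hC
    simp only [Set.mem_iUnion]
    exact ⟨r.den, Finset.mem_range.2 (by omega), hr, rfl⟩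
  refine ⟨fun C => ?_, fun C => ?_, hii, fun N hN => ?_⟩
  · obtain ⟨ρ, hρ⟩ := Lib.MP_f64c7e_nt.FP.walk_bound C
    refine ⟨ρ, fun r hr => ?_⟩
    obtain ⟨h2, h3, h4, u, c, hw, h0⟩ := exists_walk hr
    by_cases h5 : ord23 r.den ≤ C * ord r.den
    · exact Or.inl (hρ r.den h2 u c hw (by rw [h0]; exact h4) h5)
    · exact Or.inr (not_le.1 h5)
  · obtain ⟨ρ, hρ⟩ := Lib.MP_f64c7e_nt.FP.walk_bound_cyclic C
    refine ⟨ρ, fun r hr hneg hcyc => ?_⟩
    obtain ⟨h2, h3, h4, u, c, hw, h0⟩ := exists_walk hr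
    exact hρ r.den h2 u c hw (by rw [h0]; exact h3) (by rw [h0]; exact h4) hneg hcyc
  · obtain ⟨G, hG⟩ := Lib.MP_f64c7e_nt.FP.orderOf_two_ge N hN
    refine (hii (G + 1)).subset ?_
    rintro r ⟨hr, e, he⟩
    refine ⟨hr, ?_⟩
    have hpos : 0 < r.den := r.den_pos
    rcases Nat.lt_or_ge 1 r.den with h1 | h1
    · obtain ⟨h2, h3⟩ := hG r.den e he h1
      unfold ord
      nlinarith
    · have h2 : r.den = 1 := by omega
      rw [h2]
      have h3 : ord 1 = 1 := by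
        unfold ord
        rw [orderOf_eq_one_iff]
        exact Subsingleton.elim _ _
      rw [h3]; omega

end

end Pool.Agent.Results.MP_f64c7e_nt.RationalFixedPoints
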